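import Pool.Agent.U645.VB.Stm

/-!
# Project VB, package D: designs with multiset blocks and symmetric sets of triples
-/

set_option autoImplicit false

open Finset

namespace Pool.Agent.U454.VB.D

open Pool.Agent.U645.VB

/-- the block with the places `x`, `y`, `z` -/
def tr {v : ℕ} (x y z : Fin v) : Multiset (Fin v) := x ::ₘ y ::ₘ z ::ₘ 0

theorem tr_swap12 {v : ℕ} (x y z : Fin v) : tr x y z = tr y x z := by
  unfold tr; exact Multiset.cons_swap _ _ _

theorem tr_swap23 {v : ℕ} (x y z : Fin v) : tr x y z = tr x z y := by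
  unfold tr; rw [Multiset.cons_swap y z 0]

theorem mem_tr {v : ℕ} (x y z a : Fin v) : a ∈ tr x y z ↔ a = x ∨ a = y ∨ a = z := by
  unfold tr; simp

theorem card_tr {v : ℕ} (x y z : Fin v) : Multiset.card (tr x y z) = 3 := by
  unfold tr; simp

theorem count_tr {v : ℕ} (x y z a : Fin v) :
    (tr x y z).count a = (if a = x then 1 else 0) + (if a = y then 1 else 0)
      + (if a = z then 1 else 0) := by
  unfold tr
  simp only [Multiset.count_cons, Multiset.count_zero]
  ring

/-- a multiset with three places which contains `i ≠ j` is `{i, j, z}` -/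
theorem exists_third {v : ℕ} (B : Multiset (Fin v)) (hB : Multiset.card B = 3) (i j : Fin v)
    (hij : i ≠ j) (hi : i ∈ B) (hj : j ∈ B) : ∃ z, B = tr i j z := by
  obtain ⟨C, rfl⟩ := Multiset.exists_cons_of_mem hi
  have hj' : j ∈ C := by
    rcases Multiset.mem_cons.1 hj with h | h
    · exact absurd h.symm hij
    · exact h
  obtain ⟨E, rfl⟩ := Multiset.exists_cons_of_mem hj'
  have hE : Multiset.card E = 1 := by
    simp only [Multiset.card_cons] at hB
    omega
  obtain ⟨z, rfl⟩ := Multiset.card_eq_one.1 hE
  exact ⟨z, rfl⟩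

theorem tr_inj {v : ℕ} (i j z w : Fin v) (h : tr i j z = tr i j w) : z = w := by
  unfold tr at h
  have h1 := (Multiset.cons_inj_right _).1 h
  have h2 := (Multiset.cons_inj_right _).1 h1
  exact (Multiset.cons_inj_left _).1 h2

open Classical in
/-- the concurrence of two points -/
theorem key {v : ℕ} (D : Finset (Multiset (Fin v))) (hD : ∀ B ∈ D, Multiset.card B = 3)
    (i j : Fin v) (hij : i ≠ j) :
    ∑ B ∈ D, B.count i * B.count j =
      (univ.filter (fun z => z ≠ i ∧ z ≠ j ∧ tr i j z ∈ D)).card
        + 2 * (if tr i i j ∈ D then 1 else 0) + 2 * (if tr j j i ∈ D then 1 else 0) := by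
  have h1 : ∑ B ∈ D, B.count i * B.count j
      = ∑ B ∈ (univ.filter (fun z => tr i j z ∈ D)).image (fun z => tr i j z),
          B.count i * B.count j := by
    symm
    apply Finset.sum_subset
    · intro B hB
      obtain ⟨z, hz, rfl⟩ := Finset.mem_image.1 hB
      exact (Finset.mem_filter.1 hz).2
    · intro B hB hB'
      by_contra hne
      have hi : i ∈ B := by
        by_contra h
        exact hne (by rw [Multiset.count_eq_zero_of_notMem h, Nat.zero_mul])
      have hj : j ∈ B := by
        by_contra h
        exact hne (by rw [Multiset.count_eq_zero_of_notMem h, Nat.mul_zero])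
      obtain ⟨z, rfl⟩ := exists_third B (hD B hB) i j hij hi hj
      exact hB' (Finset.mem_image.2 ⟨z, Finset.mem_filter.2 ⟨Finset.mem_univ _, hB⟩, rfl⟩)
  rw [h1, Finset.sum_image (fun a _ b _ h => tr_inj i j a b h), Finset.sum_filter,
    Finset.card_filter]
  have h2 : ∀ z : Fin v,
      (if tr i j z ∈ D then (tr i j z).count i * (tr i j z).count j else 0)
        = (if z ≠ i ∧ z ≠ j ∧ tr i j z ∈ D then 1 else 0)
          + (if z = i then 2 * (if tr i i j ∈ D then 1 else 0) else 0)
          + (if z = j then 2 * (if tr j j i ∈ D then 1 else 0) else 0) := by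
    intro z
    rw [count_tr, count_tr]
    by_cases hzi : z = i
    · subst hzi
      have hs : tr z j z = tr z z j := tr_swap23 _ _ _
      rw [hs]
      have hjz : ¬ j = z := fun h => hij h.symm
      by_cases hm : tr z z j ∈ D
      · simp [hm, hij, hjz]
      · simp [hm, hij]
    · by_cases hzj : z = j
      · subst hzj
        have hs : tr i z z = tr z z i := by rw [tr_swap12, tr_swap23]
        rw [hs]
        have hji : ¬ z = i := hzi
        by_cases hm : tr z z i ∈ D
        · simp [hm, hij, hji]
        · simp [hm, hzi]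
      · have h3 : ¬ i = z := fun h => hzi h.symm
        have h4 : ¬ j = z := fun h => hzj h.symm
        have h5 : ¬ j = i := fun h => hij h.symm
        by_cases hm : tr i j z ∈ D
        · simp [hm, hij, hzi, hzj, h3, h4, h5]
        · simp [hm, hzi, hzj]
  rw [Finset.sum_congr rfl (fun z _ => h2 z), Finset.sum_add_distrib, Finset.sum_add_distrib,
    Finset.sum_ite_eq' , Finset.sum_ite_eq']
  simp only [Finset.mem_univ, if_true]

theorem forward {v l : ℕ} (D : Finset (Multiset (Fin v))) (h : IsVB v l D) : Sys (Fin v) l := by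
  classical
  refine ⟨fun x y z => decide (x ≠ y ∧ y ≠ z ∧ x ≠ z ∧ tr x y z ∈ D), ?_, ?_, ?_, ?_⟩
  · intro x y z
    rw [decide_eq_decide, tr_swap12 x y z]
    constructor
    · rintro ⟨h1, h2, h3, h4⟩
      exact ⟨h1.symm, h3, h2, h4⟩
    · rintro ⟨h1, h2, h3, h4⟩
      exact ⟨h1.symm, h3, h2, h4⟩
  · intro x y z
    rw [decide_eq_decide, tr_swap23 x y z]
    constructor
    · rintro ⟨h1, h2, h3, h4⟩
      exact ⟨h3, h2.symm, h1, h4⟩
    · rintro ⟨h1, h2, h3, h4⟩
      exact ⟨h3, h2.symm, h1, h4⟩
  · intro x y
    simp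
  · intro x y hxy
    have hk := key D (fun B hB => (h.1 B hB).1) x y hxy
    rw [h.2 x y hxy] at hk
    refine ⟨(if tr x x y ∈ D then 1 else 0) + (if tr y y x ∈ D then 1 else 0), ?_, ?_⟩
    · split_ifs <;> omega
    · have he : (univ.filter (fun z => decide (x ≠ y ∧ y ≠ z ∧ x ≠ z ∧ tr x y z ∈ D) = true))
          = univ.filter (fun z => z ≠ x ∧ z ≠ y ∧ tr x y z ∈ D) := by
        apply Finset.filter_congr
        intro z _
        rw [decide_eq_true_iff]
        constructor
        · rintro ⟨_, h2, h3, h4⟩
          exact ⟨h3.symm, h2.symm, h4⟩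
        · rintro ⟨h2, h3, h4⟩
          exact ⟨hxy, h3.symm, h2.symm, h4⟩
      rw [he, hk]
      ring

theorem backward {v l : ℕ} (h : Sys (Fin v) l) :
    ∃ D : Finset (Multiset (Fin v)), IsVB v l D := by
  classical
  obtain ⟨t, ht1, ht2, ht3, ht4⟩ := h
  -- the symmetric multiplicity
  set c : Fin v → Fin v → ℕ := fun x y => (univ.filter (fun z => t x y z = true)).card with hc
  have hcs : ∀ x y, c x y = c y x := by
    intro x y
    simp only [hc]
    congr 1
    apply Finset.filter_congr
    intro z _
    rw [ht1 x y z]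
  set e : Fin v → Fin v → ℕ := fun x y => (l - c x y) / 2 with he
  have hes : ∀ x y, e x y = e y x := by
    intro x y
    simp only [he]
    rw [hcs x y]
  have he1 : ∀ x y, x ≠ y → e x y ≤ 2 ∧ c x y + 2 * e x y = l := by
    intro x y hxy
    obtain ⟨k, hk, hk'⟩ := ht4 x y hxy
    have hce : c x y + 2 * k = l := hk'
    have hek : e x y = k := by
      simp only [he]
      omega
    rw [hek]
    exact ⟨hk, hce⟩
  have hd : ∀ x y z, t x y z = true → x ≠ y ∧ y ≠ z ∧ x ≠ z := by
    intro x y z hxyz
    refine ⟨?_, ?_, ?_⟩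
    · rintro rfl
      rw [ht3 x z] at hxyz
      exact Bool.false_ne_true hxyz
    · rintro rfl
      rw [ht1 x y y, ht2 y x y, ht3 y x] at hxyz
      exact Bool.false_ne_true hxyz
    · rintro rfl
      rw [ht2 x y x, ht3 x y] at hxyz
      exact Bool.false_ne_true hxyz
  set P : Multiset (Fin v) → Prop := fun B =>
    (∃ x y z, t x y z = true ∧ B = tr x y z) ∨
    (∃ x y, x ≠ y ∧ B = tr x x y ∧ (e x y = 2 ∨ (e x y = 1 ∧ x < y))) with hP
  set D : Finset (Multiset (Fin v)) :=
    (univ.image (fun p : Fin v × Fin v × Fin v => tr p.1 p.2.1 p.2.2)).filter P with hDdef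
  have hmem : ∀ x y z, tr x y z ∈ D ↔ P (tr x y z) := by
    intro x y z
    rw [hDdef, Finset.mem_filter]
    constructor
    · exact fun h => h.2
    · intro h
      exact ⟨Finset.mem_image.2 ⟨(x, y, z), Finset.mem_univ _, rfl⟩, h⟩
  -- triples of distinct points
  have hm1 : ∀ x y z, x ≠ y → y ≠ z → x ≠ z → (tr x y z ∈ D ↔ t x y z = true) := by
    intro x y z hxy hyz hxz
    rw [hmem]
    constructor
    · rintro (⟨a, b, c', habc, hB⟩ | ⟨a, b, hab, hB, _⟩)
      · obtain ⟨d1, d2, d3⟩ := hd a b c' habc
        have ha : a = x ∨ a = y ∨ a = z := (mem_tr x y z a).1 (by rw [hB]; exact (mem_tr _ _ _ _).2 (Or.inl rfl))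
        have hb : b = x ∨ b = y ∨ b = z := (mem_tr x y z b).1 (by rw [hB]; exact (mem_tr _ _ _ _).2 (Or.inr (Or.inl rfl)))
        have hc' : c' = x ∨ c' = y ∨ c' = z := (mem_tr x y z c').1 (by rw [hB]; exact (mem_tr _ _ _ _).2 (Or.inr (Or.inr rfl)))
        rcases ha with rfl | rfl | rfl <;> rcases hb with rfl | rfl | rfl <;>
          rcases hc' with rfl | rfl | rfl <;>
          first
          | exact absurd rfl d1
          | exact absurd rfl d2
          | exact absurd rfl d3
          | exact habc
          | (rw [ht1]; exact habc)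
          | (rw [ht2]; exact habc)
          | (rw [ht1, ht2]; exact habc)
          | (rw [ht2, ht1]; exact habc)
          | (rw [ht1, ht2, ht1]; exact habc)
      · exfalso
        have h1 := congrArg (Multiset.count a) hB
        rw [count_tr, count_tr] at h1
        have h2 : (if a = b then (1:ℕ) else 0) = 0 := if_neg hab
        rw [h2] at h1
        simp only [if_true] at h1
        by_cases hax : a = x
        · have hay : a ≠ y := fun h => hxy (hax.symm.trans h)
          have haz : a ≠ z := fun h => hxz (hax.symm.trans h)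
          rw [if_pos hax, if_neg hay, if_neg haz] at h1
          omega
        · by_cases hay : a = y
          · have haz : a ≠ z := fun h => hyz (hay.symm.trans h)
            rw [if_neg hax, if_pos hay, if_neg haz] at h1
            omega
          · rw [if_neg hax, if_neg hay] at h1
            split_ifs at h1 <;> omega
    · intro h
      exact Or.inl ⟨x, y, z, h, rfl⟩
  have hm2 : ∀ x y, x ≠ y → (tr x x y ∈ D ↔ (e x y = 2 ∨ (e x y = 1 ∧ x < y))) := by
    intro x y hxy
    rw [hmem]
    constructor
    · rintro (⟨a, b, c', habc, hB⟩ | ⟨a, b, hab, hB, hcase⟩)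
      · exfalso
        obtain ⟨d1, d2, d3⟩ := hd a b c' habc
        have h1 := congrArg (Multiset.count x) hB
        rw [count_tr, count_tr] at h1
        have h2 : (if x = y then (1:ℕ) else 0) = 0 := if_neg hxy
        rw [h2] at h1
        simp only [if_true] at h1
        by_cases hax : x = a
        · have hay : x ≠ b := fun h => d1 (hax.symm.trans h)
          have haz : x ≠ c' := fun h => d3 (hax.symm.trans h)
          rw [if_pos hax, if_neg hay, if_neg haz] at h1
          omega
        · by_cases hay : x = b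
          · have haz : x ≠ c' := fun h => d2 (hay.symm.trans h)
            rw [if_neg hax, if_pos hay, if_neg haz] at h1
            omega
          · rw [if_neg hax, if_neg hay] at h1
            split_ifs at h1 <;> omega
      · have h1 := congrArg (Multiset.count a) hB
        rw [count_tr, count_tr] at h1
        have h2 : (if a = b then (1:ℕ) else 0) = 0 := if_neg hab
        rw [h2] at h1
        simp only [if_true] at h1
        have hax : a = x := by
          by_contra hax
          rw [if_neg hax] at h1
          split_ifs at h1 <;> omega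
        subst hax
        have hby : y = b := tr_inj _ _ _ _ hB
        rw [hby]
        exact hcase
    · intro h
      exact Or.inr ⟨x, y, hxy, rfl, h⟩
  refine ⟨D, ?_, ?_⟩
  · intro B hB
    rcases (Finset.mem_filter.1 hB).2 with ⟨x, y, z, hxyz, rfl⟩ | ⟨x, y, hxy, rfl, _⟩
    · refine ⟨card_tr _ _ _, x, (mem_tr _ _ _ _).2 (Or.inl rfl), y, (mem_tr _ _ _ _).2 (Or.inr (Or.inl rfl)), (hd x y z hxyz).1⟩
    · refine ⟨card_tr _ _ _, x, (mem_tr _ _ _ _).2 (Or.inl rfl), y, (mem_tr _ _ _ _).2 (Or.inr (Or.inr rfl)), hxy⟩
  · intro i j hij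
    have hcard : ∀ B ∈ D, Multiset.card B = 3 := by
      intro B hB
      rcases (Finset.mem_filter.1 hB).2 with ⟨x, y, z, _, rfl⟩ | ⟨x, y, _, rfl, _⟩
      · exact card_tr _ _ _
      · exact card_tr _ _ _
    rw [key D hcard i j hij]
    have h1 : (univ.filter (fun z => z ≠ i ∧ z ≠ j ∧ tr i j z ∈ D)).card = c i j := by
      simp only [hc]
      congr 1
      apply Finset.filter_congr
      intro z _
      constructor
      · rintro ⟨h1, h2, h3⟩
        exact (hm1 i j z hij h2.symm h1.symm).1 h3
      · intro h
        obtain ⟨_, d2, d3⟩ := hd i j z h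
        exact ⟨d3.symm, d2.symm, (hm1 i j z hij d2 d3).2 h⟩
    rw [h1]
    obtain ⟨he2, he3⟩ := he1 i j hij
    have hes' := hes j i
    have hA : tr i i j ∈ D ↔ (e i j = 2 ∨ (e i j = 1 ∧ i < j)) := hm2 i j hij
    have hB : tr j j i ∈ D ↔ (e i j = 2 ∨ (e i j = 1 ∧ j < i)) := by
      rw [hm2 j i hij.symm, hes']
    have hlt : i < j ∨ j < i := lt_or_gt_of_ne hij
    have hnot : ¬ (i < j ∧ j < i) := fun h => lt_asymm h.1 h.2
    simp only [hA, hB]
    rcases Nat.lt_or_ge (e i j) 1 with h0 | h0
    · have h00 : e i j = 0 := by omega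
      rw [h00] at he3 ⊢
      simp
      omega
    · rcases Nat.lt_or_ge (e i j) 2 with h2 | h2
      · have h11 : e i j = 1 := by omega
        rw [h11] at he3 ⊢
        rcases hlt with h | h
        · have h' : ¬ j < i := lt_asymm h
          simp [h, h']
          omega
        · have h' : ¬ i < j := lt_asymm h
          simp [h, h']
          omega
      · have h22 : e i j = 2 := by omega
        rw [h22] at he3 ⊢
        simp
        omega

theorem t_D : S_D := by
  intro v l
  constructor
  · rintro ⟨D, hD⟩
    exact forward D hD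
  · exact backward

end Pool.Agent.U454.VB.D
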